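import Pool.Agent.Results.MP_6c3d62_pr.CyclesFollowRandomWalk

/-!
# Cycles of random stirring that avoid a set: comparison with a killed random walk
-/

set_option autoImplicit false

namespace Pool.Agent.R256.DC

open Finset Equiv
open Pool.Agent.Y998.ST

variable {V : Type} [Fintype V] [DecidableEq V]

theorem exp_mono {J : V → V → ℝ} (hJ : ∀ x y, 0 ≤ J x y) {t : ℝ} (ht : 0 ≤ t)
    {F G : Perm V → ℝ} (h : ∀ g, F g ≤ G g) : stirExp J t F ≤ stirExp J t G := by
  unfold stirExp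
  exact Finset.sum_le_sum fun g _ => mul_le_mul_of_nonneg_left (h g) (law_nonneg hJ ht g)

theorem event_le {J : V → V → ℝ} (hJ : ∀ x y, 0 ≤ J x y) {t : ℝ} (ht : 0 ≤ t) {K : ℕ} (v : V)
    (Y : Finset (Fin K → V)) (F : Perm V → ℝ) (hF : ∀ g, F g ≤ 1)
    (hE : ∀ g, (fun i : Fin K => (g ^ ((i : ℕ) + 1)) v) ∉ Y → F g ≤ 0) (B : (Fin K → V) → ℝ)
    (e : ℝ)
    (h : ∑ y : Fin K → V, |stirExp J t
      (fun g => if ∀ i : Fin K, (g ^ ((i : ℕ) + 1)) v = y i then 1 else 0) - B y| ≤ e) :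
    stirExp J t F ≤ ∑ y ∈ Y, B y + e := by
  obtain ⟨A, hA⟩ : ∃ A : (Fin K → V) → ℝ, A = fun y => stirExp J t
      (fun g => if ∀ i : Fin K, (g ^ ((i : ℕ) + 1)) v = y i then 1 else 0) := ⟨_, rfl⟩
  have h1 : stirExp J t F ≤ ∑ y ∈ Y, A y := by
    have h2 : ∑ y ∈ Y, A y = stirExp J t (fun g => ∑ y ∈ Y,
        (if ∀ i : Fin K, (g ^ ((i : ℕ) + 1)) v = y i then (1 : ℝ) else 0)) := by
      rw [hA]
      unfold stirExp
      simp only [Finset.mul_sum]
      rw [Finset.sum_comm]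
    rw [h2]
    refine exp_mono hJ ht fun g => ?_
    by_cases hg : (fun i : Fin K => (g ^ ((i : ℕ) + 1)) v) ∈ Y
    · refine (hF g).trans ?_
      have h3 : (if ∀ i : Fin K, (g ^ ((i : ℕ) + 1)) v =
          (fun i : Fin K => (g ^ ((i : ℕ) + 1)) v) i then (1 : ℝ) else 0) ≤ ∑ y ∈ Y,
        (if ∀ i : Fin K, (g ^ ((i : ℕ) + 1)) v = y i then (1 : ℝ) else 0) :=
        Finset.single_le_sum (f := fun y : Fin K → V =>
          (if ∀ i : Fin K, (g ^ ((i : ℕ) + 1)) v = y i then (1 : ℝ) else 0))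
          (fun y _ => by positivity) hg
      refine le_trans (le_of_eq ?_) h3
      rw [if_pos fun _ => rfl]
    · exact (hE g hg).trans (Finset.sum_nonneg fun y _ => by positivity)
  have h4 : ∑ y ∈ Y, A y ≤ ∑ y ∈ Y, B y + ∑ y ∈ Y, |A y - B y| := by
    rw [← Finset.sum_add_distrib]
    refine Finset.sum_le_sum fun y _ => ?_
    have := le_abs_self (A y - B y)
    linarith
  have h5 : ∑ y ∈ Y, |A y - B y| ≤ e := by
    refine le_trans (Finset.sum_le_sum_of_subset_of_nonneg (Finset.subset_univ _)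
      fun y _ _ => abs_nonneg _) ?_
    rw [hA]
    exact h
  linarith

theorem CS_const (M : Matrix V V ℝ) (n : ℕ) (v : V) :
    CS n (fun _ x w => M x w) v = ∑ w, (M ^ n) v w := by
  induction n generalizing v with
  | zero =>
    rw [CS_zero, pow_zero]
    simp [Matrix.one_apply]
  | succ n ih =>
    rw [CS_succ]
    simp only [ih]
    rw [pow_succ']
    simp only [Matrix.mul_apply]
    rw [Finset.sum_comm]
    exact Finset.sum_congr rfl fun a _ => Finset.mul_sum _ _ _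

/-- the kernel killed in `S` -/
def KS (q : Matrix V V ℝ) (S : Finset V) : Matrix V V ℝ := fun x w => if w ∈ S then 0 else q x w

theorem KS_nonneg {q : Matrix V V ℝ} (hq : ∀ x y, 0 ≤ q x y) (S : Finset V) (x w : V) :
    0 ≤ KS q S x w := by
  unfold KS
  split_ifs
  · exact le_rfl
  · exact hq x w

theorem pow_nn {M : Matrix V V ℝ} (hM : ∀ x y, 0 ≤ M x y) (n : ℕ) (x w : V) : 0 ≤ (M ^ n) x w := by
  induction n generalizing x w with
  | zero => rw [pow_zero, Matrix.one_apply]; split_ifs <;> norm_num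
  | succ n ih =>
    rw [pow_succ, Matrix.mul_apply]
    exact Finset.sum_nonneg fun z _ => mul_nonneg (ih x z) (hM z w)

theorem KS_pow {q : Matrix V V ℝ} (hq : ∀ x y, 0 ≤ q x y) (S : Finset V) (n : ℕ) (x w : V) :
    (KS q S ^ n) x w ≤ (q ^ n) x w := by
  induction n generalizing x w with
  | zero => simp
  | succ n ih =>
    rw [pow_succ, pow_succ, Matrix.mul_apply, Matrix.mul_apply]
    refine Finset.sum_le_sum fun z _ => mul_le_mul (ih x z) ?_ (KS_nonneg hq S z w)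
      (pow_nn hq n x z)
    unfold KS
    split_ifs
    · exact hq z w
    · exact le_rfl

theorem KS_zero {q : Matrix V V ℝ} (S : Finset V) (n : ℕ) (hn : 0 < n) (x w : V) (hw : w ∈ S) :
    (KS q S ^ n) x w = 0 := by
  obtain ⟨m, rfl⟩ := Nat.exists_eq_add_of_le' hn
  rw [pow_succ, Matrix.mul_apply]
  refine Finset.sum_eq_zero fun z _ => ?_
  unfold KS
  rw [if_pos hw, mul_zero]

theorem KS_row {q : Matrix V V ℝ} (hq : ∀ x y, 0 ≤ q x y) (S : Finset V) (n : ℕ) (hn : 0 < n)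
    (x : V) : ∑ w, (KS q S ^ n) x w ≤ ∑ w ∈ Sᶜ, (q ^ n) x w := by
  have h1 : ∑ w, (KS q S ^ n) x w = ∑ w ∈ Sᶜ, (KS q S ^ n) x w := by
    rw [← Finset.sum_add_sum_compl S]
    rw [Finset.sum_eq_zero fun w hw => KS_zero S n hn x w hw, zero_add]
  rw [h1]
  exact Finset.sum_le_sum fun w _ => KS_pow hq S n x w

theorem row_pow {M : Matrix V V ℝ} (hM : ∀ x y, 0 ≤ M x y) {ρ : ℝ}
    (h : ∀ x, ∑ w, M x w ≤ ρ) (n : ℕ) (x : V) : ∑ w, (M ^ n) x w ≤ ρ ^ n := by
  have hρ : 0 ≤ ρ := (Finset.sum_nonneg fun w _ => hM x w).trans (h x)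
  induction n generalizing x with
  | zero => simp [Matrix.one_apply]
  | succ n ih =>
    rw [pow_succ']
    simp only [Matrix.mul_apply]
    rw [Finset.sum_comm]
    calc ∑ a, ∑ w, M x a * (M ^ n) a w = ∑ a, M x a * ∑ w, (M ^ n) a w :=
          Finset.sum_congr rfl fun a _ => (Finset.mul_sum _ _ _).symm
      _ ≤ ∑ a, M x a * ρ ^ n :=
          Finset.sum_le_sum fun a _ => mul_le_mul_of_nonneg_left (ih a) (hM x a)
      _ = (∑ a, M x a) * ρ ^ n := (Finset.sum_mul _ _ _).symm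
      _ ≤ ρ * ρ ^ n := mul_le_mul_of_nonneg_right (h x) (by positivity)
      _ = ρ ^ (n + 1) := by ring

/-- the sum of the products over the paths outside `S` -/
theorem sum_avoid (q : Matrix V V ℝ) (S : Finset V) (K : ℕ) (v : V) :
    ∑ y ∈ Finset.univ.filter (fun y : Fin K → V => ∀ i, y i ∉ S),
      ∏ i : Fin K, q ((Fin.cons v y : Fin (K + 1) → V) i.castSucc) (y i) =
        ∑ w, (KS q S ^ K) v w := by
  rw [← CS_const]
  unfold CS
  rw [Finset.sum_filter]
  refine Finset.sum_congr rfl fun y _ => ?_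
  split_ifs with h
  · refine Finset.prod_congr rfl fun i _ => ?_
    simp only [KS, pre]
    rw [if_neg (h i)]
  · push Not at h
    obtain ⟨i, hi⟩ := h
    symm
    refine Finset.prod_eq_zero (Finset.mem_univ i) ?_
    simp only [KS]
    rw [if_pos hi]

/-- the probability that the cycle avoids `S` -/
theorem avoid_le (d : ℕ) (hd : 3 ≤ d) : ∃ C : ℝ, 0 < C ∧ ∀ (L : ℕ) [NeZero L], 3 ≤ L →
    ∀ (t : ℝ), 1 ≤ t → ∀ (K : ℕ) (v : Fin d → ZMod L) (S : Finset (Fin d → ZMod L))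
      (F : Perm (Fin d → ZMod L) → ℝ), (∀ g, F g ≤ 1) →
      (∀ g, (∃ n : ℕ, 1 ≤ n ∧ (g ^ n) v ∈ S) → F g ≤ 0) →
      stirExp (nnRate d L) t F ≤ ∑ w, (KS (qq (nnRate d L) t) S ^ K) v w +
        C * (K * t ^ (1 - (d : ℝ) / 2) + (K : ℝ) ^ 2 * t / (L : ℝ) ^ d) := by
  obtain ⟨C, hC, h⟩ := Pool.Agent.Results.MP_6c3d62_pr.CyclesFollowRandomWalk.result d hd
  refine ⟨C, hC, fun L _ hL t ht K v S F hF hS => ?_⟩
  have h1 := (h L hL t ht K v).2
  refine (event_le nn_nonneg (by linarith : (0 : ℝ) ≤ t) v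
    (Finset.univ.filter (fun y : Fin K → Fin d → ZMod L => ∀ i, y i ∉ S)) F hF ?_ _ _ h1).trans ?_
  · intro g hg
    rw [Finset.mem_filter] at hg
    push Not at hg
    obtain ⟨i, hi⟩ := hg (Finset.mem_univ _)
    exact hS g ⟨(i : ℕ) + 1, by omega, hi⟩
  · refine add_le_add (le_of_eq ?_) le_rfl
    exact sum_avoid (qq (nnRate d L) t) S K v

end Pool.Agent.R256.DC
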