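import Pool.Agent.R256.DC.Num

/-!
# The diameter of typical cycles, `t ≤ L²`
-/

set_option autoImplicit false

namespace Pool.Agent.R256.DC

open Finset Equiv
open Pool.Agent.Y998.ST

/-- the box of radius `r` around `v` -/
def box {d L : ℕ} [NeZero L] (v : Fin d → ZMod L) (r : ℕ) : Finset (Fin d → ZMod L) :=
  Finset.univ.filter (fun w => ∀ i, (w i - v i).valMinAbs.natAbs ≤ r)

theorem box_card {d L : ℕ} [NeZero L] (v : Fin d → ZMod L) (r : ℕ) :
    (box v r).card ≤ (2 * r + 1) ^ d := by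
  classical
  have h1 : box v r ⊆ Fintype.piFinset (fun i => Finset.univ.filter
      (fun x : ZMod L => (x - v i).valMinAbs.natAbs ≤ r)) := by
    intro w hw
    unfold box at hw
    rw [Finset.mem_filter] at hw
    rw [Fintype.mem_piFinset]
    intro i
    rw [Finset.mem_filter]
    exact ⟨Finset.mem_univ _, hw.2 i⟩
  refine (Finset.card_le_card h1).trans ?_
  rw [Fintype.card_piFinset]
  have h2 : ∀ i : Fin d, (Finset.univ.filter
      (fun x : ZMod L => (x - v i).valMinAbs.natAbs ≤ r)).card ≤ 2 * r + 1 := by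
    intro i
    have h3 : (Finset.univ.filter
      (fun x : ZMod L => (x - v i).valMinAbs.natAbs ≤ r)).card ≤ (Finset.Icc (-(r : ℤ)) r).card := by
      refine Finset.card_le_card_of_injOn (fun x => (x - v i).valMinAbs) ?_ ?_
      · intro x hx
        have hx' : (x - v i).valMinAbs.natAbs ≤ r := by
          have := Finset.mem_coe.1 hx
          rw [Finset.mem_filter] at this
          exact this.2
        rw [Finset.mem_coe, Finset.mem_Icc]
        show -(r : ℤ) ≤ (x - v i).valMinAbs ∧ (x - v i).valMinAbs ≤ (r : ℤ)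
        constructor <;> omega
      · intro x _ y _ hxy
        have h4 := ZMod.injective_valMinAbs hxy
        exact sub_left_injective h4
    refine h3.trans ?_
    rw [Int.card_Icc]
    omega
  calc ∏ i : Fin d, (Finset.univ.filter
      (fun x : ZMod L => (x - v i).valMinAbs.natAbs ≤ r)).card ≤ ∏ _i : Fin d, (2 * r + 1) :=
        Finset.prod_le_prod' fun i _ => h2 i
    _ = (2 * r + 1) ^ d := by rw [Finset.prod_const, Finset.card_univ, Fintype.card_fin]

theorem box_card_real {d L : ℕ} [NeZero L] (v : Fin d → ZMod L) (r : ℕ) (hr : 1 ≤ r) :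
    ((box v r).card : ℝ) ≤ (3 * (r : ℝ)) ^ d := by
  have h1 : ((box v r).card : ℝ) ≤ ((2 * r + 1 : ℕ) : ℝ) ^ d := by exact_mod_cast box_card v r
  refine h1.trans (pow_le_pow_left₀ (by positivity) ?_ d)
  push_cast
  have : (1 : ℝ) ≤ r := by exact_mod_cast hr
  linarith

theorem two_pow (a b : ℝ) (ha : 0 ≤ a) (hb : 0 ≤ b) (d : ℕ) :
    (a + b) ^ d ≤ 2 ^ d * (a ^ d + b ^ d) := by
  rcases le_total a b with h | h
  · calc (a + b) ^ d ≤ (2 * b) ^ d := pow_le_pow_left₀ (by positivity) (by linarith) d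
      _ = 2 ^ d * b ^ d := mul_pow _ _ _
      _ ≤ _ := mul_le_mul_of_nonneg_left (by
          have : 0 ≤ a ^ d := by positivity
          linarith) (by positivity)
  · calc (a + b) ^ d ≤ (2 * a) ^ d := pow_le_pow_left₀ (by positivity) (by linarith) d
      _ = 2 ^ d * a ^ d := mul_pow _ _ _
      _ ≤ _ := mul_le_mul_of_nonneg_left (by
          have : 0 ≤ b ^ d := by positivity
          linarith) (by positivity)

theorem early (d : ℕ) (hd : 3 ≤ d) : ∃ C : ℝ, 0 < C ∧ ∀ (L : ℕ) [NeZero L], 3 ≤ L →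
    ∀ t : ℝ, 1 ≤ t → t ≤ (L : ℝ) ^ 2 → ∀ (v : Fin d → ZMod L) (r : ℕ), 1 ≤ r →
      (r : ℝ) / min (t ^ ((d : ℝ) / 4)) L ≤ 1 →
      ∀ F : Perm (Fin d → ZMod L) → ℝ, (∀ g, F g ≤ 1) →
      (∀ g, (∃ n : ℕ, 1 ≤ n ∧ (g ^ n) v ∈ (box v r)ᶜ) → F g ≤ 0) →
      stirExp (nnRate d L) t F ≤
        C * ((r : ℝ) / min (t ^ ((d : ℝ) / 4)) L) ^ ((d : ℝ) / (d + 3)) := by
  obtain ⟨C, hC, h⟩ := avoid_le d hd
  refine ⟨2 * 6 ^ d + C * 6, by positivity, ?_⟩
  intro L _ hL t ht htL v r hr hu1 F hF hS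
  have hL1 : (1 : ℝ) ≤ L := by exact_mod_cast (show 1 ≤ L by omega)
  have hL0 : (0 : ℝ) < L := by linarith
  have hr1 : (1 : ℝ) ≤ r := by exact_mod_cast hr
  have ht0 : 0 < t := by linarith
  obtain ⟨u, hu⟩ : ∃ u : ℝ, u = (r : ℝ) / min (t ^ ((d : ℝ) / 4)) L := ⟨_, rfl⟩
  rw [← hu] at hu1 ⊢
  obtain ⟨K, hK0, hK1, hK2, hK3, hK4⟩ := num d hd r t L _ u hr1 ht hL1 htL rfl hu hu1
  obtain ⟨U, hU⟩ : ∃ U : ℝ, U = u ^ ((d : ℝ) / (d + 3)) := ⟨_, rfl⟩
  rw [← hU] at hK1 hK2 hK3 hK4 ⊢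
  have hKR : (0 : ℝ) < K := by exact_mod_cast hK0
  have hq : ∀ x y, 0 ≤ qq (nnRate d L) t x y := qq_nonneg nn_nonneg ht0.le
  refine (h L hL t ht K v (box v r)ᶜ F hF hS).trans ?_
  have h1 : ∑ w, (KS (qq (nnRate d L) t) (box v r)ᶜ ^ K) v w ≤ 2 * 6 ^ d * U := by
    refine (KS_row hq _ K hK0 v).trans ?_
    rw [compl_compl, qq_pow nn_symm (nn_diag hL)]
    have hs : 0 < Real.sqrt (K * t) := Real.sqrt_pos.2 (by positivity)
    calc ∑ w ∈ box v r, qq (nnRate d L) (K * t) v w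
        ≤ ∑ _w ∈ box v r, (1 / (L : ℝ) + 1 / Real.sqrt (K * t)) ^ d :=
          Finset.sum_le_sum fun w _ => qq_torus hL (by positivity) v w
      _ = (box v r).card * (1 / (L : ℝ) + 1 / Real.sqrt (K * t)) ^ d := by
          rw [Finset.sum_const, nsmul_eq_mul]
      _ ≤ (3 * (r : ℝ)) ^ d * (1 / (L : ℝ) + 1 / Real.sqrt (K * t)) ^ d :=
          mul_le_mul_of_nonneg_right (box_card_real v r hr) (by positivity)
      _ = 3 ^ d * (r / (L : ℝ) + r / Real.sqrt (K * t)) ^ d := by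
          rw [← mul_pow, ← mul_pow]
          congr 1
          ring
      _ ≤ 3 ^ d * (2 ^ d * ((r / (L : ℝ)) ^ d + (r / Real.sqrt (K * t)) ^ d)) :=
          mul_le_mul_of_nonneg_left (two_pow _ _ (by positivity) (by positivity) d) (by positivity)
      _ ≤ 3 ^ d * (2 ^ d * (U + U)) :=
          mul_le_mul_of_nonneg_left (mul_le_mul_of_nonneg_left (add_le_add hK2 hK1)
            (by positivity)) (by positivity)
      _ = 2 * 6 ^ d * U := by
          have : (6 : ℝ) ^ d = 3 ^ d * 2 ^ d := by rw [← mul_pow]; norm_num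
          rw [this]
          ring
  have h2 : C * (K * t ^ (1 - (d : ℝ) / 2) + (K : ℝ) ^ 2 * t / (L : ℝ) ^ d) ≤ C * (6 * U) :=
    mul_le_mul_of_nonneg_left (by linarith) hC.le
  calc _ ≤ 2 * 6 ^ d * U + C * (6 * U) := add_le_add h1 h2
    _ = _ := by ring

end Pool.Agent.R256.DC
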