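import Pool.Agent.R256.DC.Mix
import Pool.Agent.Y998.LQ.Final

/-!
# Cycles that avoid a set at diffusive times
-/

set_option autoImplicit false

namespace Pool.Agent.R256.DC

open Finset Equiv
open Pool.Agent.Y998.ST
open Pool.Agent.TH268.PD (ret ret_spec)
open Pool.Agent.Y998.LP (NN)

open Classical in
theorem fix_count (k : ℕ) :
    ∑ π : Perm (Fin (k + 1)), (if π 0 = 0 then (1 : ℝ) else 0) = (k.factorial : ℝ) := by
  rw [Finset.sum_boole]
  have h1 : (Finset.univ.filter (fun π : Perm (Fin (k + 1)) => π 0 = 0)).card =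
      (Finset.univ : Finset (Perm (Fin k))).card := by
    symm
    refine Finset.card_bij (fun σ _ => Equiv.Perm.decomposeFin.symm (0, σ)) ?_ ?_ ?_
    · intro σ _
      rw [Finset.mem_filter]
      exact ⟨Finset.mem_univ _, by simp⟩
    · intro σ _ τ _ h
      have := Equiv.Perm.decomposeFin.symm.injective h
      exact (Prod.mk.inj this).2
    · intro π hπ
      rw [Finset.mem_filter] at hπ
      refine ⟨(Equiv.Perm.decomposeFin π).2, Finset.mem_univ _, ?_⟩
      have h2 : (Equiv.Perm.decomposeFin π).1 = 0 := by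
        have h3 := Equiv.Perm.decomposeFin_symm_apply_zero (Equiv.Perm.decomposeFin π).1
          (Equiv.Perm.decomposeFin π).2
        rw [Prod.mk.eta, Equiv.symm_apply_apply] at h3
        rw [← h3, hπ.2]
      rw [← h2, Prod.mk.eta, Equiv.symm_apply_apply]
  rw [h1, Finset.card_univ, Fintype.card_perm, Fintype.card_fin]

theorem late {d : ℕ} (hd : 1 ≤ d) : ∃ C : ℝ, 0 < C ∧ ∀ (L : ℕ) [NeZero L], 3 ≤ L →
    ∀ t : ℝ, 0 < t → ∀ (v : Fin d → ZMod L) (S : Finset (Fin d → ZMod L)) (k : ℕ),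
      k ≤ S.card → v ∉ S → ∀ F : Perm (Fin d → ZMod L) → ℝ, (∀ g, F g ≤ 1) →
      (∀ g, (∃ n : ℕ, 1 ≤ n ∧ (g ^ n) v ∈ S) → F g ≤ 0) →
      stirExp (nnRate d L) t F ≤ 1 / ((k : ℝ) + 1) + (k + 1) * (C * L / Real.sqrt t) := by
  obtain ⟨C, hC, h⟩ := Pool.Agent.Y998.LQ.t_dist d hd
  have hd0 : (0 : ℝ) < d := by exact_mod_cast hd
  refine ⟨C * d, by positivity, fun L _ hL t ht v S k hk hv F hF hS => ?_⟩
  have hst : 0 < Real.sqrt t := Real.sqrt_pos.2 ht
  have hL0 : (0 : ℝ) < L := by exact_mod_cast (show 0 < L by omega)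
  obtain ⟨T, hTS, hTc⟩ := Finset.exists_subset_card_eq hk
  obtain ⟨e⟩ : Nonempty (Fin k ≃ T) := ⟨(Finset.equivFinOfCardEq hTc).symm⟩
  obtain ⟨b, hb⟩ : ∃ b : Fin (k + 1) → Fin d → ZMod L,
      b = Fin.cons v (fun i => ((e i : T) : Fin d → ZMod L)) := ⟨_, rfl⟩
  have hbS : ∀ i : Fin k, b i.succ ∈ S := by
    intro i
    rw [hb, Fin.cons_succ]
    exact hTS (e i).2
  have hb0 : b 0 = v := by rw [hb, Fin.cons_zero]
  have hinj : Function.Injective b := by
    rw [hb, Fin.cons_injective_iff]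
    refine ⟨?_, ?_⟩
    · rintro ⟨i, hi⟩
      apply hv
      rw [← hi]
      exact hTS (e i).2
    · intro i j hij
      exact e.injective (Subtype.ext hij)
  obtain ⟨η, hη⟩ : ∃ η : ℝ, η = C * d * L / Real.sqrt t := ⟨_, rfl⟩
  have hη0 : 0 ≤ η := by rw [hη]; positivity
  have hNN : ∀ i j, NN (nnRate d L) t (swap (b i) (b j)) ≤ η := by
    intro i j
    refine (h L hL t ht (b i) (b j)).trans ?_
    rw [hη]
    refine div_le_div_of_nonneg_right ?_ hst.le
    have h1 : (Pool.Agent.Y998.LP.tdist (b i) (b j) : ℝ) ≤ d * L := by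
      have h2 : Pool.Agent.Y998.LP.tdist (b i) (b j) ≤ ∑ _i : Fin d, L := by
        unfold Pool.Agent.Y998.LP.tdist
        refine Finset.sum_le_sum fun i _ => ?_
        exact (ZMod.natAbs_valMinAbs_le _).trans (Nat.div_le_self _ _)
      rw [Finset.sum_const, Finset.card_univ, Fintype.card_fin, smul_eq_mul] at h2
      exact_mod_cast h2
    calc C * (Pool.Agent.Y998.LP.tdist (b i) (b j) : ℝ) ≤ C * (d * L) :=
          mul_le_mul_of_nonneg_left h1 hC.le
      _ = C * d * L := by ring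
  classical
  have h1 := Pool.Agent.Y998.LQ.ind_mean (nnRate d L) t b hinj η hη0 hNN
    (fun π => if π 0 = 0 then 1 else 0) 1 zero_le_one (by
      intro π
      split_ifs <;> norm_num)
  rw [fix_count] at h1
  have h2 : stirExp (nnRate d L) t F ≤ ∑ g, stirLaw (nnRate d L) t g *
      (if ret (k + 1) b g 0 = 0 then 1 else 0) := by
    unfold stirExp
    refine Finset.sum_le_sum fun g _ => mul_le_mul_of_nonneg_left ?_
      (law_nonneg nn_nonneg ht.le g)
    by_cases hr : ret (k + 1) b g 0 = 0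
    · rw [if_pos hr]
      exact hF g
    · rw [if_neg hr]
      apply hS g
      obtain ⟨n, hn1, hn2, _⟩ := (ret_spec (k + 1) b hinj).1 g 0
      obtain ⟨j, hj⟩ := Fin.exists_succ_eq.2 hr
      refine ⟨n, hn1, ?_⟩
      rw [hb0] at hn2
      rw [hn2, ← hj]
      exact hbS j
  have h3 := (abs_le.1 h1).2
  have h4 : (k.factorial : ℝ) / ((k + 1).factorial : ℝ) = 1 / ((k : ℝ) + 1) := by
    rw [Nat.factorial_succ]
    push_cast
    have : (k.factorial : ℝ) ≠ 0 := by positivity
    field_simp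
  rw [h4] at h3
  have h5 : ((k + 1 : ℕ) : ℝ) * (1 * η) = (k + 1) * (C * d * L / Real.sqrt t) := by
    rw [hη]
    push_cast
    ring
  linarith

end Pool.Agent.R256.DC
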