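import Pool.Agent.R256.DC.Base

/-!
# A lower bound for the heat kernel of the torus
-/

set_option autoImplicit false

namespace Pool.Agent.R256.DC

open Finset Equiv
open Pool.Agent.Y998.ST

theorem gk_lower {L : ℕ} [NeZero L] {t : ℝ} (ht : 0 < t) (u : ZMod L) :
    1 / L - 1 / Real.sqrt t ≤ gk L t u := by
  have h1 := gk_le (L := L) ht
  have h2 : 2 / (L : ℝ) ≤ gk L t u + gk L t 0 := by
    unfold gk
    rw [← mul_add, ← Finset.sum_add_distrib]
    have h3 : (2 : ℝ) ≤ ∑ k : ZMod L, (Real.exp (-(t * lam k)) * rc (k * u) +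
        Real.exp (-(t * lam k)) * rc (k * 0)) := by
      have h4 : ∀ k : ZMod L, 0 ≤ Real.exp (-(t * lam k)) * rc (k * u) +
          Real.exp (-(t * lam k)) * rc (k * 0) := by
        intro k
        rw [mul_zero, rc_zero, ← mul_add]
        have h5 := (abs_le.1 (rc_le (k * u))).1
        exact mul_nonneg (Real.exp_pos _).le (by linarith)
      refine le_trans ?_ (Finset.single_le_sum (fun k _ => h4 k) (Finset.mem_univ (0 : ZMod L)))
      have h6 : lam (0 : ZMod L) = 0 := by unfold lam; rw [rc_zero]; norm_num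
      simp only [h6, mul_zero, neg_zero, Real.exp_zero, zero_mul, rc_zero]
      norm_num
    calc 2 / (L : ℝ) = 1 / L * 2 := by ring
      _ ≤ _ := mul_le_mul_of_nonneg_left h3 (by positivity)
  have h3 : (2 : ℝ) / L = 1 / L + 1 / L := by ring
  linarith

theorem qq_lower {d L : ℕ} [NeZero L] (hd : 1 ≤ d) (hL : 3 ≤ L) {t : ℝ}
    (ht : 4 * (d : ℝ) ^ 2 * (L : ℝ) ^ 2 ≤ t) (a b : Fin d → ZMod L) :
    1 / 2 / (L : ℝ) ^ d ≤ qq (nnRate d L) t a b := by
  have hd1 : (1 : ℝ) ≤ d := by exact_mod_cast hd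
  have hL0 : (0 : ℝ) < L := by exact_mod_cast (show 0 < L by omega)
  have ht0 : 0 < t := lt_of_lt_of_le (by positivity) ht
  rw [qq_eq_hk hL]
  unfold hk
  have h1 : 2 * (d : ℝ) * L ≤ Real.sqrt t := by
    apply Real.le_sqrt_of_sq_le
    refine le_trans (le_of_eq ?_) ht
    ring
  have h2 : 1 / Real.sqrt t ≤ 1 / (2 * d * L) := one_div_le_one_div_of_le (by positivity) h1
  have h3 : ∀ u : ZMod L, 1 / (L : ℝ) * (1 - 1 / (2 * d)) ≤ gk L t u := by
    intro u
    refine le_trans (le_of_eq ?_) ((sub_le_sub_left h2 _).trans (gk_lower ht0 u))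
    field_simp
  have h4 : 0 ≤ 1 / (L : ℝ) * (1 - 1 / (2 * d)) := by
    have : 1 / (2 * (d : ℝ)) ≤ 1 := by
      rw [div_le_one (by positivity)]
      linarith
    exact mul_nonneg (by positivity) (by linarith)
  calc 1 / 2 / (L : ℝ) ^ d ≤ (1 / (L : ℝ) * (1 - 1 / (2 * d))) ^ d := by
        rw [mul_pow, one_div_pow, div_eq_mul_one_div (1 / 2 : ℝ), mul_comm (1 / 2 : ℝ)]
        refine mul_le_mul_of_nonneg_left ?_ (by positivity)
        have h5 : -2 ≤ -(1 / (2 * (d : ℝ))) := by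
          have : 1 / (2 * (d : ℝ)) ≤ 1 := by
            rw [div_le_one (by positivity)]
            linarith
          linarith
        have h6 := one_add_mul_le_pow h5 d
        have h7 : 1 + (d : ℝ) * -(1 / (2 * (d : ℝ))) = 1 / 2 := by
          field_simp
          ring
        rw [h7] at h6
        refine h6.trans (le_of_eq ?_)
        ring
    _ = ∏ _i : Fin d, (1 / (L : ℝ) * (1 - 1 / (2 * d))) := by
        rw [Finset.prod_const, Finset.card_univ, Fintype.card_fin]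
    _ ≤ ∏ i, gk L t (b i - a i) := Finset.prod_le_prod (fun i _ => h4) fun i _ => h3 _

/-- the killed walk dies -/
theorem killed {d L : ℕ} [NeZero L] (hd : 1 ≤ d) (hL : 3 ≤ L) {t : ℝ} (ht : 0 ≤ t)
    {m : ℕ} (hm : 0 < m) (hmt : 4 * (d : ℝ) ^ 2 * (L : ℝ) ^ 2 ≤ m * t)
    (S : Finset (Fin d → ZMod L)) {δ : ℝ} (hS : δ * (L : ℝ) ^ d ≤ S.card) (n : ℕ)
    (v : Fin d → ZMod L) :
    ∑ w, (KS (qq (nnRate d L) t) S ^ (m * n)) v w ≤ (1 - δ / 2) ^ n := by
  have hq : ∀ x y, 0 ≤ qq (nnRate d L) t x y := qq_nonneg nn_nonneg ht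
  have hL0 : (0 : ℝ) < L := by exact_mod_cast (show 0 < L by omega)
  rw [pow_mul]
  refine row_pow (pow_nn (KS_nonneg hq S) m) (fun x => ?_) n v
  refine (KS_row hq S m hm x).trans ?_
  rw [qq_pow nn_symm (nn_diag hL)]
  have h1 := qq_row (nnRate d L) (m * t) x
  rw [← Finset.sum_add_sum_compl S] at h1
  have h2 : δ / 2 ≤ ∑ w ∈ S, qq (nnRate d L) (m * t) x w := by
    calc δ / 2 = δ * (L : ℝ) ^ d * (1 / 2 / (L : ℝ) ^ d) := by field_simp
      _ ≤ S.card * (1 / 2 / (L : ℝ) ^ d) := mul_le_mul_of_nonneg_right hS (by positivity)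
      _ = ∑ _w ∈ S, (1 / 2 / (L : ℝ) ^ d) := by rw [Finset.sum_const, nsmul_eq_mul]
      _ ≤ _ := Finset.sum_le_sum fun w _ => qq_lower hd hL hmt x w
  linarith

end Pool.Agent.R256.DC
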