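import Pool.Agent.R256.DC.Mix

/-!
# The choice of the number of steps
-/

set_option autoImplicit false

namespace Pool.Agent.R256.DC

open Finset Equiv
open Pool.Agent.Y998.ST

/-- the estimates for the number of steps `⌈x r² / t⌉` -/
theorem num (d : ℕ) (hd : 3 ≤ d) (r t L M u : ℝ) (hr : 1 ≤ r) (ht : 1 ≤ t) (hL : 1 ≤ L)
    (htL : t ≤ L ^ 2) (hM : M = min (t ^ ((d : ℝ) / 4)) L) (hu : u = r / M) (hu1 : u ≤ 1) :
    ∃ K : ℕ, 0 < K ∧ (r / Real.sqrt (K * t)) ^ d ≤ u ^ ((d : ℝ) / (d + 3)) ∧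
      (r / L) ^ d ≤ u ^ ((d : ℝ) / (d + 3)) ∧
      K * t ^ (1 - (d : ℝ) / 2) ≤ 2 * u ^ ((d : ℝ) / (d + 3)) ∧
      (K : ℝ) ^ 2 * t / L ^ d ≤ 4 * u ^ ((d : ℝ) / (d + 3)) := by
  have hd3 : (3 : ℝ) ≤ d := by exact_mod_cast hd
  have ht0 : 0 < t := by linarith
  have hL0 : 0 < L := by linarith
  have hr0 : 0 < r := by linarith
  have htd : 0 < t ^ ((d : ℝ) / 4) := Real.rpow_pos_of_pos ht0 _
  have hM0 : 0 < M := by rw [hM]; exact lt_min htd hL0
  have hMt : M ≤ t ^ ((d : ℝ) / 4) := by rw [hM]; exact min_le_left _ _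
  have hML : M ≤ L := by rw [hM]; exact min_le_right _ _
  have hu0 : 0 < u := by rw [hu]; positivity
  have hd3' : (0 : ℝ) < d + 3 := by linarith
  -- comparison of powers of u
  have hpow : ∀ s : ℝ, (d : ℝ) / (d + 3) ≤ s → u ^ s ≤ u ^ ((d : ℝ) / (d + 3)) := fun s hs =>
    Real.rpow_le_rpow_of_exponent_ge hu0 hu1 hs
  have ha1 : (d : ℝ) / (d + 3) ≤ 1 := by
    rw [div_le_one hd3']
    linarith
  obtain ⟨x, hx⟩ : ∃ x : ℝ, x = u ^ (-(2 / ((d : ℝ) + 3))) := ⟨_, rfl⟩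
  have hx0 : 0 < x := by rw [hx]; positivity
  have hx1 : 1 ≤ x := by
    rw [hx]
    exact Real.one_le_rpow_of_pos_of_le_one_of_nonpos hu0 hu1 (by
      have : 0 < 2 / ((d : ℝ) + 3) := by positivity
      linarith)
  have hrM : r = u * M := by rw [hu]; field_simp
  refine ⟨⌈x * r ^ 2 / t⌉₊, Nat.ceil_pos.2 (by positivity), ?_, ?_, ?_, ?_⟩
  · -- (r / sqrt (K t)) ^ d
    have h1 : x * r ^ 2 / t ≤ (⌈x * r ^ 2 / t⌉₊ : ℝ) := Nat.le_ceil _
    have h2 : x * r ^ 2 ≤ (⌈x * r ^ 2 / t⌉₊ : ℝ) * t := by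
      rw [div_le_iff₀ ht0] at h1
      exact h1
    have h3 : Real.sqrt x * r ≤ Real.sqrt ((⌈x * r ^ 2 / t⌉₊ : ℝ) * t) := by
      apply Real.le_sqrt_of_sq_le
      rw [mul_pow, Real.sq_sqrt hx0.le]
      exact h2
    have h4 : 0 < Real.sqrt x := Real.sqrt_pos.2 hx0
    have h5 : r / Real.sqrt ((⌈x * r ^ 2 / t⌉₊ : ℝ) * t) ≤ 1 / Real.sqrt x := by
      rw [div_le_div_iff₀ (lt_of_lt_of_le (by positivity) h3) h4]
      linarith
    refine (pow_le_pow_left₀ (by positivity) h5 d).trans (le_of_eq ?_)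
    rw [Real.sqrt_eq_rpow, hx, ← Real.rpow_mul hu0.le, one_div, ← Real.rpow_neg hu0.le,
      ← Real.rpow_natCast, ← Real.rpow_mul hu0.le]
    congr 1
    field_simp
  · -- (r / L) ^ d
    have h1 : r / L ≤ u := by
      rw [hu]
      exact div_le_div_of_nonneg_left hr0.le hM0 hML
    refine (pow_le_pow_left₀ (by positivity) h1 d).trans ?_
    rw [← Real.rpow_natCast]
    exact hpow _ (by linarith)
  · have h1 : (⌈x * r ^ 2 / t⌉₊ : ℝ) ≤ x * r ^ 2 / t + 1 := (Nat.ceil_lt_add_one (by positivity)).le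
    have h2 : t ^ (1 - (d : ℝ) / 2) = t * t ^ (-((d : ℝ) / 2)) := by
      rw [sub_eq_add_neg, Real.rpow_add ht0, Real.rpow_one]
    have h3 : r ^ 2 * t ^ (-((d : ℝ) / 2)) ≤ u ^ 2 := by
      have h4 : r * t ^ (-((d : ℝ) / 4)) ≤ u := by
        rw [hu, Real.rpow_neg ht0.le, ← div_eq_mul_inv]
        exact div_le_div_of_nonneg_left hr0.le hM0 hMt
      have h5 : t ^ (-((d : ℝ) / 2)) = (t ^ (-((d : ℝ) / 4))) ^ 2 := by
        rw [← Real.rpow_natCast, ← Real.rpow_mul ht0.le]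
        congr 1
        push_cast
        ring
      rw [h5, ← mul_pow]
      exact pow_le_pow_left₀ (by positivity) h4 2
    have h6 : x * u ^ 2 ≤ u ^ ((d : ℝ) / (d + 3)) := by
      rw [hx, ← Real.rpow_natCast u 2, ← Real.rpow_add hu0]
      refine hpow _ ?_
      rw [div_le_iff₀ hd3']
      push_cast
      field_simp
      linarith
    have h7 : t ^ (1 - (d : ℝ) / 2) ≤ u ^ ((d : ℝ) / (d + 3)) := by
      have h8 : t ^ (-((d : ℝ) / 4)) ≤ u := by
        rw [hu, Real.rpow_neg ht0.le, ← one_div]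
        exact div_le_div₀ hr0.le hr hM0 hMt
      have h9 : (t ^ (-((d : ℝ) / 4))) ^ ((d : ℝ) / (d + 3)) ≤ u ^ ((d : ℝ) / (d + 3)) :=
        Real.rpow_le_rpow (by positivity) h8 (by positivity)
      refine le_trans ?_ h9
      rw [← Real.rpow_mul ht0.le]
      refine Real.rpow_le_rpow_of_exponent_le ht ?_
      have h10 : -((d : ℝ) / 4) * ((d : ℝ) / (d + 3)) = -((d : ℝ) ^ 2 / (4 * (d + 3))) := by
        field_simp
      rw [h10]
      have h11 : (d : ℝ) ^ 2 / (4 * (d + 3)) ≤ d / 2 - 1 := by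
        rw [div_le_iff₀ (by positivity)]
        nlinarith
      linarith
    calc (⌈x * r ^ 2 / t⌉₊ : ℝ) * t ^ (1 - (d : ℝ) / 2)
        ≤ (x * r ^ 2 / t + 1) * t ^ (1 - (d : ℝ) / 2) :=
          mul_le_mul_of_nonneg_right h1 (by positivity)
      _ = x * (r ^ 2 * t ^ (-((d : ℝ) / 2))) + t ^ (1 - (d : ℝ) / 2) := by
          rw [h2]
          field_simp
      _ ≤ x * u ^ 2 + t ^ (1 - (d : ℝ) / 2) := by
          have := mul_le_mul_of_nonneg_left h3 hx0.le
          linarith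
      _ ≤ _ := by linarith
  · have h1 : (⌈x * r ^ 2 / t⌉₊ : ℝ) ≤ x * r ^ 2 / t + 1 := (Nat.ceil_lt_add_one (by positivity)).le
    have h2 : ((⌈x * r ^ 2 / t⌉₊ : ℝ)) ^ 2 ≤ 2 * (x * r ^ 2 / t) ^ 2 + 2 := by
      have h3 := pow_le_pow_left₀ (by positivity) h1 2
      nlinarith [sq_nonneg (x * r ^ 2 / t - 1)]
    have hLd : 0 < L ^ d := by positivity
    have h4 : M ^ 4 ≤ t * L ^ d := by
      have h5 : M ^ 4 = M ^ (4 / (d : ℝ)) * M ^ (4 - 4 / (d : ℝ)) := by
        rw [← Real.rpow_add hM0, ← Real.rpow_natCast M 4]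
        congr 1
        push_cast
        ring
      have h6 : M ^ (4 / (d : ℝ)) ≤ t := by
        refine (Real.rpow_le_rpow hM0.le hMt (by positivity)).trans (le_of_eq ?_)
        rw [← Real.rpow_mul ht0.le]
        have h7 : (d : ℝ) / 4 * (4 / d) = 1 := by field_simp
        rw [h7, Real.rpow_one]
      have h8 : 0 ≤ 4 - 4 / (d : ℝ) := by
        rw [sub_nonneg, div_le_iff₀ (by positivity)]
        linarith
      have h9 : M ^ (4 - 4 / (d : ℝ)) ≤ L ^ d := by
        refine (Real.rpow_le_rpow hM0.le hML h8).trans ?_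
        rw [← Real.rpow_natCast L d]
        refine Real.rpow_le_rpow_of_exponent_le hL ?_
        have h10 : (4 : ℝ) ≤ d + 4 / d := by
          rw [← sub_nonneg]
          have h11 : (d : ℝ) + 4 / d - 4 = (d - 2) ^ 2 / d := by
            field_simp
            ring
          rw [h11]
          positivity
        linarith
      rw [h5]
      exact mul_le_mul h6 h9 (by positivity) ht0.le
    have h5 : r ^ 4 ≤ u ^ 4 * (t * L ^ d) := by
      rw [hrM, mul_pow]
      exact mul_le_mul_of_nonneg_left h4 (by positivity)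
    have h6 : x ^ 2 * u ^ 4 ≤ u ^ ((d : ℝ) / (d + 3)) := by
      rw [hx, ← Real.rpow_natCast u 4, ← Real.rpow_natCast (u ^ (-(2 / ((d : ℝ) + 3)))) 2,
        ← Real.rpow_mul hu0.le, ← Real.rpow_add hu0]
      refine hpow _ ?_
      rw [div_le_iff₀ hd3']
      push_cast
      field_simp
      linarith
    have h7 : t / L ^ d ≤ u ^ ((d : ℝ) / (d + 3)) := by
      have h8 : 1 / L ≤ u := by
        rw [hu]
        exact div_le_div₀ hr0.le hr hM0 hML
      have h9 : u ≤ u ^ ((d : ℝ) / (d + 3)) := by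
        conv_lhs => rw [← Real.rpow_one u]
        exact hpow 1 ha1
      refine le_trans ?_ (h8.trans h9)
      rw [div_le_div_iff₀ hLd hL0]
      calc t * L ≤ L ^ 2 * L := mul_le_mul_of_nonneg_right htL hL0.le
        _ = L ^ 3 := by ring
        _ ≤ L ^ d := pow_le_pow_right₀ hL hd
        _ = 1 * L ^ d := by ring
    calc ((⌈x * r ^ 2 / t⌉₊ : ℝ)) ^ 2 * t / L ^ d
        ≤ (2 * (x * r ^ 2 / t) ^ 2 + 2) * t / L ^ d := by
          refine div_le_div_of_nonneg_right ?_ hLd.le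
          exact mul_le_mul_of_nonneg_right h2 ht0.le
      _ = 2 * (x ^ 2 * (r ^ 4 / (t * L ^ d))) + 2 * (t / L ^ d) := by
          field_simp
      _ ≤ 2 * (x ^ 2 * u ^ 4) + 2 * (t / L ^ d) := by
          have h8 : r ^ 4 / (t * L ^ d) ≤ u ^ 4 := by
            rw [div_le_iff₀ (by positivity)]
            exact h5
          have := mul_le_mul_of_nonneg_left h8 (sq_nonneg x)
          linarith
      _ ≤ _ := by linarith

end Pool.Agent.R256.DC
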