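import Pool.Agent.R256.DC.Early
import Pool.Agent.Results.MP_6c3d62_pr.TypicalCycles

/-!
# The diameter of typical cycles
-/

set_option autoImplicit false

namespace Pool.Agent.R256.DC

open Finset Equiv
open Pool.Agent.Y998.ST

theorem cyc_box {d L : ℕ} [NeZero L] (v : Fin d → ZMod L) (r : ℕ) (g : Perm (Fin d → ZMod L))
    (h : ∀ n : ℕ, (g ^ n) v ∈ box v r) : cycleLen g v ≤ (2 * r + 1) ^ d := by
  unfold cycleLen
  refine le_trans ?_ (box_card v r)
  rw [← Fintype.card_coe (box v r), ← Nat.card_eq_fintype_card]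
  have h1 : ∀ w : {w // g.SameCycle v w}, w.1 ∈ box v r := by
    intro w
    obtain ⟨n, hn⟩ := w.2.exists_nat_pow_eq
    rw [← hn]
    exact h n
  refine Nat.card_le_card_of_injective (fun w : {w // g.SameCycle v w} =>
    (⟨w.1, h1 w⟩ : {w // w ∈ box v r})) ?_
  intro a b hab
  exact Subtype.ext (congrArg (fun x : {w // w ∈ box v r} => x.1) hab)

open Classical in
theorem partA (d : ℕ) (hd : 3 ≤ d) :
    ∃ C : ℝ, 0 < C ∧ ∀ (L : ℕ) [NeZero L], 3 ≤ L → ∀ t : ℝ, 1 ≤ t →
      ∀ (v : Fin d → ZMod L) (r : ℕ), 1 ≤ r →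
      stirExp (nnRate d L) t (fun g => if ∀ (n : ℕ) (i : Fin d),
        ((g ^ n) v i - v i).valMinAbs.natAbs ≤ r then 1 else 0) ≤
        C * ((r : ℝ) / min (t ^ ((d : ℝ) / 4)) L) ^ ((d : ℝ) / (d + 3)) := by
  obtain ⟨C₁, hC₁, h1⟩ := early d hd
  obtain ⟨C₂, hC₂, h2⟩ := Pool.Agent.Results.MP_6c3d62_pr.TypicalCycles.result d (by omega)
  refine ⟨1 + C₁ + 3 * C₂, by positivity, fun L _ hL t ht v r hr => ?_⟩
  have hd3 : (3 : ℝ) ≤ d := by exact_mod_cast hd
  have ht0 : 0 < t := by linarith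
  have hL1 : (1 : ℝ) ≤ L := by exact_mod_cast (show 1 ≤ L by omega)
  have hL0 : (0 : ℝ) < L := by linarith
  have hr1 : (1 : ℝ) ≤ r := by exact_mod_cast hr
  have htd : 0 < t ^ ((d : ℝ) / 4) := Real.rpow_pos_of_pos ht0 _
  have ha0 : 0 ≤ (d : ℝ) / (d + 3) := by positivity
  have hU0 : 0 ≤ ((r : ℝ) / min (t ^ ((d : ℝ) / 4)) L) ^ ((d : ℝ) / (d + 3)) := by positivity
  obtain ⟨F, hF⟩ : ∃ F : Perm (Fin d → ZMod L) → ℝ, F = fun g => if ∀ (n : ℕ) (i : Fin d),
        ((g ^ n) v i - v i).valMinAbs.natAbs ≤ r then 1 else 0 := ⟨_, rfl⟩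
  rw [← hF]
  have hF1 : ∀ g, F g ≤ 1 := by
    intro g
    rw [hF]
    beta_reduce
    split_ifs <;> norm_num
  have hFb : ∀ g, (∃ n : ℕ, 1 ≤ n ∧ (g ^ n) v ∈ (box v r)ᶜ) → F g ≤ 0 := by
    rintro g ⟨n, _, hn⟩
    rw [hF]
    beta_reduce
    rw [if_neg]
    intro h
    rw [Finset.mem_compl] at hn
    apply hn
    unfold box
    rw [Finset.mem_filter]
    exact ⟨Finset.mem_univ _, fun i => h n i⟩
  rcases lt_or_ge 1 ((r : ℝ) / min (t ^ ((d : ℝ) / 4)) L) with h | h
  · have h3 : stirExp (nnRate d L) t F ≤ 1 :=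
      (exp_mono nn_nonneg ht0.le hF1).trans (le_of_eq (exp_const _ _ _))
    have h4 : 1 ≤ ((r : ℝ) / min (t ^ ((d : ℝ) / 4)) L) ^ ((d : ℝ) / (d + 3)) :=
      Real.one_le_rpow h.le ha0
    calc stirExp (nnRate d L) t F ≤ 1 * 1 := by linarith
      _ ≤ _ := mul_le_mul (by linarith) h4 zero_le_one (by positivity)
  · rcases le_total t ((L : ℝ) ^ 2) with htL | htL
    · refine (h1 L hL t ht htL v r hr h F hF1 hFb).trans ?_
      exact mul_le_mul_of_nonneg_right (by linarith) hU0
    · have hM : min (t ^ ((d : ℝ) / 4)) (L : ℝ) = L := by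
        refine min_eq_right ?_
        calc (L : ℝ) = (L : ℝ) ^ (1 : ℝ) := (Real.rpow_one _).symm
          _ ≤ (L : ℝ) ^ ((d : ℝ) / 2) :=
            Real.rpow_le_rpow_of_exponent_le hL1 (by linarith)
          _ = ((L : ℝ) ^ 2) ^ ((d : ℝ) / 4) := by
            rw [← Real.rpow_natCast, ← Real.rpow_mul hL0.le]
            congr 1
            push_cast
            ring
          _ ≤ t ^ ((d : ℝ) / 4) := Real.rpow_le_rpow (by positivity) htL (by positivity)
      have hM2 : min (t ^ max ((d : ℝ) / 2) ((d : ℝ) - 1)) ((L : ℝ) ^ d) = (L : ℝ) ^ d := by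
        refine min_eq_right ?_
        calc (L : ℝ) ^ d = ((L : ℝ) ^ 2) ^ ((d : ℝ) / 2) := by
              rw [← Real.rpow_natCast, ← Real.rpow_natCast, ← Real.rpow_mul hL0.le]
              congr 1
              push_cast
              ring
          _ ≤ t ^ ((d : ℝ) / 2) := Real.rpow_le_rpow (by positivity) htL (by positivity)
          _ ≤ _ := Real.rpow_le_rpow_of_exponent_le ht (le_max_left _ _)
      have h3 := h2 L hL t ht0 v ((2 * r + 1) ^ d)
      rw [hM2] at h3
      rw [hM]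
      have h4 : stirExp (nnRate d L) t F ≤ stirExp (nnRate d L) t
          (fun g => if cycleLen g v ≤ (2 * r + 1) ^ d then 1 else 0) := by
        refine exp_mono nn_nonneg ht0.le fun g => ?_
        by_cases hg : ∃ n : ℕ, 1 ≤ n ∧ (g ^ n) v ∈ (box v r)ᶜ
        · exact (hFb g hg).trans (by positivity)
        · rw [if_pos]
          · exact hF1 g
          · apply cyc_box
            intro n
            push Not at hg
            rcases Nat.eq_zero_or_pos n with hn | hn
            · rw [hn, pow_zero, Perm.one_apply]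
              unfold box
              rw [Finset.mem_filter]
              refine ⟨Finset.mem_univ _, fun i => ?_⟩
              rw [sub_self]
              simp
            · have := hg n hn
              rw [Finset.mem_compl, not_not] at this
              exact this
      refine (h4.trans h3).trans ?_
      have h5 : ((((2 * r + 1) ^ d : ℕ) : ℝ) / (L : ℝ) ^ d) ^ (1 / ((d : ℝ) + 3)) ≤
          3 * ((r : ℝ) / L) ^ ((d : ℝ) / (d + 3)) := by
        have h6 : (((2 * r + 1) ^ d : ℕ) : ℝ) / (L : ℝ) ^ d ≤ (3 * ((r : ℝ) / L)) ^ d := by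
          push_cast
          rw [← div_pow]
          refine pow_le_pow_left₀ (by positivity) ?_ d
          rw [← mul_div_assoc]
          exact div_le_div_of_nonneg_right (by linarith) hL0.le
        calc _ ≤ ((3 * ((r : ℝ) / L)) ^ d) ^ (1 / ((d : ℝ) + 3)) :=
              Real.rpow_le_rpow (by positivity) h6 (by positivity)
          _ = (3 * ((r : ℝ) / L)) ^ ((d : ℝ) / (d + 3)) := by
              rw [← Real.rpow_natCast, ← Real.rpow_mul (by positivity)]
              congr 1
              ring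
          _ = 3 ^ ((d : ℝ) / (d + 3)) * ((r : ℝ) / L) ^ ((d : ℝ) / (d + 3)) :=
              Real.mul_rpow (by norm_num) (by positivity)
          _ ≤ 3 ^ (1 : ℝ) * ((r : ℝ) / L) ^ ((d : ℝ) / (d + 3)) := by
              refine mul_le_mul_of_nonneg_right ?_ (by positivity)
              refine Real.rpow_le_rpow_of_exponent_le (by norm_num) ?_
              rw [div_le_one (by positivity)]
              linarith
          _ = _ := by rw [Real.rpow_one]
      calc _ ≤ C₂ * (3 * ((r : ℝ) / L) ^ ((d : ℝ) / (d + 3))) :=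
            mul_le_mul_of_nonneg_left h5 hC₂.le
        _ = (3 * C₂) * ((r : ℝ) / L) ^ ((d : ℝ) / (d + 3)) := by ring
        _ ≤ _ := mul_le_mul_of_nonneg_right (by linarith) (by positivity)

end Pool.Agent.R256.DC
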