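import Pool.Agent.R256.DC.Late

/-!
# Typical cycles visit every set of positive density
-/

set_option autoImplicit false

namespace Pool.Agent.R256.DC

open Finset Equiv
open Pool.Agent.Y998.ST

open Classical in
theorem partB (d : ℕ) (hd : 3 ≤ d) (δ₀ η : ℝ) (hδ₀ : 0 < δ₀) (hη : 0 < η) :
    ∃ A : ℝ, 0 < A ∧ ∀ (L : ℕ) [NeZero L], A ≤ L → ∀ t : ℝ,
      A * (L : ℝ) ^ (4 / (d : ℝ)) ≤ t → ∀ (v : Fin d → ZMod L) (S : Finset (Fin d → ZMod L)),
      δ₀ * (L : ℝ) ^ d ≤ S.card →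
      stirExp (nnRate d L) t (fun g => if ∀ n : ℕ, (g ^ n) v ∉ S then 1 else 0) ≤ η := by
  obtain ⟨C₁, hC₁, h1⟩ := avoid_le d hd
  obtain ⟨C₂, hC₂, h2⟩ := late (d := d) (by omega)
  obtain ⟨δ, hδ, hδ1, hδ2⟩ : ∃ δ : ℝ, 0 < δ ∧ δ ≤ 1 ∧ δ ≤ δ₀ :=
    ⟨min δ₀ 1, lt_min hδ₀ one_pos, min_le_right _ _, min_le_left _ _⟩
  have hd3 : (3 : ℝ) ≤ d := by exact_mod_cast hd
  obtain ⟨n, hn⟩ : ∃ n : ℕ, (1 - δ / 2) ^ n < η / 2 :=
    exists_pow_lt_of_lt_one (by positivity) (by linarith)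
  obtain ⟨k, hk⟩ : ∃ k : ℕ, 1 / ((k : ℝ) + 1) < η / 4 := exists_nat_one_div_lt (by positivity)
  obtain ⟨A₂, hA₂⟩ : ∃ A₂ : ℝ, A₂ = (4 * (k + 1) * C₂ / η) ^ 2 + 1 := ⟨_, rfl⟩
  have hA₂1 : 1 ≤ A₂ := by
    rw [hA₂]
    have : 0 ≤ (4 * (k + 1) * C₂ / η) ^ 2 := by positivity
    linarith
  have hA₂0 : 0 < A₂ := by linarith
  obtain ⟨G, hG⟩ : ∃ G : ℝ, G = n * (4 * (d : ℝ) ^ 2 + A₂) := ⟨_, rfl⟩
  have hG0 : 0 ≤ G := by rw [hG]; positivity
  obtain ⟨A, hA⟩ : ∃ A : ℝ, A = 3 + k / δ + 2 * C₁ * (G + G ^ 2) / η := ⟨_, rfl⟩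
  have hA3 : 3 ≤ A := by
    rw [hA]
    have h3 : 0 ≤ (k : ℝ) / δ := by positivity
    have h4 : 0 ≤ 2 * C₁ * (G + G ^ 2) / η := by positivity
    linarith
  have hAk : k / δ ≤ A := by
    rw [hA]
    have h4 : 0 ≤ 2 * C₁ * (G + G ^ 2) / η := by positivity
    linarith
  have hAG : 2 * C₁ * (G + G ^ 2) / η ≤ A := by
    rw [hA]
    have h3 : 0 ≤ (k : ℝ) / δ := by positivity
    linarith
  have hA0 : 0 < A := by linarith
  refine ⟨A, hA0, fun L _ hAL t htA v S hS => ?_⟩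
  have hL3r : (3 : ℝ) ≤ L := hA3.trans hAL
  have hL : 3 ≤ L := by exact_mod_cast hL3r
  have hL1 : (1 : ℝ) ≤ L := by linarith
  have hL0 : (0 : ℝ) < L := by linarith
  have hLp : 1 ≤ (L : ℝ) ^ (4 / (d : ℝ)) := Real.one_le_rpow hL1 (by positivity)
  have ht3 : 3 ≤ t := by
    refine le_trans ?_ htA
    calc (3 : ℝ) = 3 * 1 := by norm_num
      _ ≤ _ := mul_le_mul hA3 hLp zero_le_one hA0.le
  have ht0 : 0 < t := by linarith
  have hSd : δ * (L : ℝ) ^ d ≤ S.card :=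
    (mul_le_mul_of_nonneg_right hδ2 (by positivity)).trans hS
  obtain ⟨F, hF⟩ : ∃ F : Perm (Fin d → ZMod L) → ℝ, F = fun g => if ∀ n : ℕ, (g ^ n) v ∉ S then
    1 else 0 := ⟨_, rfl⟩
  rw [← hF]
  have hF1 : ∀ g, F g ≤ 1 := by
    intro g
    rw [hF]
    beta_reduce
    split_ifs <;> norm_num
  have hFb : ∀ g, (∃ n : ℕ, (g ^ n) v ∈ S) → F g ≤ 0 := by
    rintro g ⟨n, hn⟩
    rw [hF]
    beta_reduce
    rw [if_neg]
    intro h
    exact h n hn
  have hFb1 : ∀ g, (∃ n : ℕ, 1 ≤ n ∧ (g ^ n) v ∈ S) → F g ≤ 0 :=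
    fun g ⟨n, _, hn⟩ => hFb g ⟨n, hn⟩
  by_cases hv : v ∈ S
  · refine (exp_mono nn_nonneg ht0.le (G := fun _ => 0) fun g => hFb g ⟨0, ?_⟩).trans ?_
    · rw [pow_zero, Perm.one_apply]
      exact hv
    · rw [exp_const]
      exact hη.le
  rcases le_total (A₂ * (L : ℝ) ^ 2) t with htL | htL
  · have hkS : k ≤ S.card := by
      have h3 : (k : ℝ) ≤ S.card := by
        refine le_trans ?_ hSd
        have h4 : (L : ℝ) ≤ (L : ℝ) ^ d := le_self_pow₀ hL1 (by omega)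
        have h5 : (k : ℝ) / δ ≤ (L : ℝ) ^ d := (hAk.trans hAL).trans h4
        rw [div_le_iff₀ hδ] at h5
        linarith
      exact_mod_cast h3
    refine (h2 L hL t ht0 v S k hkS hv F hF1 hFb1).trans ?_
    have h3 : 4 * (k + 1) * C₂ / η * L ≤ Real.sqrt t := by
      apply Real.le_sqrt_of_sq_le
      refine le_trans ?_ htL
      rw [mul_pow]
      refine mul_le_mul_of_nonneg_right ?_ (by positivity)
      rw [hA₂]
      linarith
    have hst : 0 < Real.sqrt t := Real.sqrt_pos.2 ht0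
    have h4 : ((k : ℝ) + 1) * (C₂ * L / Real.sqrt t) ≤ η / 4 := by
      rw [← mul_div_assoc, div_le_iff₀ hst]
      have h5 : η * (4 * (k + 1) * C₂ / η * L) ≤ η * Real.sqrt t :=
        mul_le_mul_of_nonneg_left h3 hη.le
      have h6 : η * (4 * (k + 1) * C₂ / η * L) = 4 * (((k : ℝ) + 1) * (C₂ * L)) := by
        field_simp
      linarith
    linarith
  · obtain ⟨m, hm⟩ : ∃ m : ℕ, m = ⌈4 * (d : ℝ) ^ 2 * (L : ℝ) ^ 2 / t⌉₊ := ⟨_, rfl⟩
    have hm0 : 0 < m := by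
      rw [hm]
      exact Nat.ceil_pos.2 (by positivity)
    have hm1 : 4 * (d : ℝ) ^ 2 * (L : ℝ) ^ 2 ≤ m * t := by
      rw [← div_le_iff₀ ht0, hm]
      exact Nat.le_ceil _
    have hm2 : (m : ℝ) ≤ (4 * (d : ℝ) ^ 2 + A₂) * (L : ℝ) ^ 2 / t := by
      have h3 : (m : ℝ) < 4 * (d : ℝ) ^ 2 * (L : ℝ) ^ 2 / t + 1 := by
        rw [hm]
        exact Nat.ceil_lt_add_one (by positivity)
      have h4 : 1 ≤ A₂ * (L : ℝ) ^ 2 / t := by
        rw [le_div_iff₀ ht0]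
        linarith
      have h5 : (4 * (d : ℝ) ^ 2 + A₂) * (L : ℝ) ^ 2 / t =
          4 * (d : ℝ) ^ 2 * (L : ℝ) ^ 2 / t + A₂ * (L : ℝ) ^ 2 / t := by ring
      linarith
    have hK : ((m * n : ℕ) : ℝ) ≤ G * (L : ℝ) ^ 2 / t := by
      push_cast
      calc (m : ℝ) * n ≤ ((4 * (d : ℝ) ^ 2 + A₂) * (L : ℝ) ^ 2 / t) * n :=
            mul_le_mul_of_nonneg_right hm2 (by positivity)
        _ = _ := by rw [hG]; ring
    refine (h1 L hL t (by linarith) (m * n) v S F hF1 hFb1).trans ?_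
    have h3 : ∑ w, (KS (qq (nnRate d L) t) S ^ (m * n)) v w ≤ (1 - δ / 2) ^ n :=
      killed (by omega) hL ht0.le hm0 hm1 S hSd n v
    have hAL2 : A * (L : ℝ) ^ 2 ≤ t ^ ((d : ℝ) / 2) := by
      calc A * (L : ℝ) ^ 2 = A ^ (1 : ℝ) * (L : ℝ) ^ 2 := by rw [Real.rpow_one]
        _ ≤ A ^ ((d : ℝ) / 2) * (L : ℝ) ^ 2 :=
            mul_le_mul_of_nonneg_right (Real.rpow_le_rpow_of_exponent_le (by linarith)
              (by linarith)) (by positivity)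
        _ = (A * (L : ℝ) ^ (4 / (d : ℝ))) ^ ((d : ℝ) / 2) := by
            rw [Real.mul_rpow hA0.le (by positivity), ← Real.rpow_mul hL0.le,
              ← Real.rpow_natCast (L : ℝ) 2]
            congr 2
            push_cast
            field_simp
            norm_num
        _ ≤ t ^ ((d : ℝ) / 2) := Real.rpow_le_rpow (by positivity) htA (by positivity)
    have hAL4 : A * (L : ℝ) ^ 4 ≤ t * (L : ℝ) ^ d := by
      calc A * (L : ℝ) ^ 4 ≤ A * (L : ℝ) ^ (4 / (d : ℝ) + d) := by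
            refine mul_le_mul_of_nonneg_left ?_ hA0.le
            rw [← Real.rpow_natCast (L : ℝ) 4]
            refine Real.rpow_le_rpow_of_exponent_le hL1 ?_
            push_cast
            have h4 : 4 / (d : ℝ) + d = 4 + (d - 2) ^ 2 / d := by
              field_simp
              ring
            rw [h4]
            have : 0 ≤ ((d : ℝ) - 2) ^ 2 / d := by positivity
            linarith
        _ = A * (L : ℝ) ^ (4 / (d : ℝ)) * (L : ℝ) ^ d := by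
            rw [Real.rpow_add hL0, Real.rpow_natCast]
            ring
        _ ≤ t * (L : ℝ) ^ d := mul_le_mul_of_nonneg_right htA (by positivity)
    have htd : 0 < t ^ ((d : ℝ) / 2) := Real.rpow_pos_of_pos ht0 _
    have h4 : ((m * n : ℕ) : ℝ) * t ^ (1 - (d : ℝ) / 2) ≤ G / A := by
      rw [Real.rpow_sub ht0, Real.rpow_one]
      calc ((m * n : ℕ) : ℝ) * (t / t ^ ((d : ℝ) / 2))
          ≤ (G * (L : ℝ) ^ 2 / t) * (t / t ^ ((d : ℝ) / 2)) :=
            mul_le_mul_of_nonneg_right hK (by positivity)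
        _ = G * (L : ℝ) ^ 2 / t ^ ((d : ℝ) / 2) := by field_simp
        _ ≤ G / A := by
            rw [div_le_div_iff₀ htd hA0]
            calc G * (L : ℝ) ^ 2 * A = G * (A * (L : ℝ) ^ 2) := by ring
              _ ≤ _ := mul_le_mul_of_nonneg_left hAL2 hG0
    have h5 : ((m * n : ℕ) : ℝ) ^ 2 * t / (L : ℝ) ^ d ≤ G ^ 2 / A := by
      calc ((m * n : ℕ) : ℝ) ^ 2 * t / (L : ℝ) ^ d
          ≤ (G * (L : ℝ) ^ 2 / t) ^ 2 * t / (L : ℝ) ^ d :=
            div_le_div_of_nonneg_right (mul_le_mul_of_nonneg_right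
              (pow_le_pow_left₀ (by positivity) hK 2) ht0.le) (by positivity)
        _ = G ^ 2 * (L : ℝ) ^ 4 / (t * (L : ℝ) ^ d) := by
            field_simp
        _ ≤ G ^ 2 / A := by
            rw [div_le_div_iff₀ (by positivity) hA0]
            calc G ^ 2 * (L : ℝ) ^ 4 * A = G ^ 2 * (A * (L : ℝ) ^ 4) := by ring
              _ ≤ _ := mul_le_mul_of_nonneg_left hAL4 (by positivity)
    have h6 : C₁ * (((m * n : ℕ) : ℝ) * t ^ (1 - (d : ℝ) / 2) +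
        ((m * n : ℕ) : ℝ) ^ 2 * t / (L : ℝ) ^ d) ≤ η / 2 := by
      calc _ ≤ C₁ * (G / A + G ^ 2 / A) := mul_le_mul_of_nonneg_left (add_le_add h4 h5) hC₁.le
        _ = C₁ * (G + G ^ 2) / A := by ring
        _ ≤ η / 2 := by
            rw [div_le_iff₀ hA0]
            rw [div_le_iff₀ hη] at hAG
            linarith
    linarith

end Pool.Agent.R256.DC
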